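import Pool.Agent.N536.SG.Fin

/-!
# The fifty percent law for the sign conjecture

Let `W` be a Weil cohomology theory with coefficient field `K` (de Rham or rational crystalline
cohomology, say), on a class of smooth proper varieties closed under products. For a variety `Y` and a
set `D` of degrees, `ParityOn W Y D` says that the algebraic correspondences separate the even from the
odd cohomology classes of `Y` in the degrees in `D`: for `y ∈ H^i(Y)`, `y' ∈ H^j(Y)` with `i, j ∈ D`, `i`
even and `j` odd, some `K`-linear combination `φ` of cycles of codimension `dim Y` on `Y × Y`, which may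
depend on `y` and `y'`, has `φ(y) = y` and `φ(y') = 0`. This is so if one combination has no common
eigenvalue on the even and on the odd part, as the Frobenius has over a finite field (Katz, Messing);
it is so for the set of all even degrees and for the set of all odd degrees, for trivial reasons, and
one of these two sets contains half of the cohomology of `Y`.

**Theorem.** Let `X` be a variety which has, for all `s ≤ d = dim X`, cycles of codimension `s` and
`d - s` with nonzero intersection number (for example a projective variety). If the sign conjecture
`C⁺(X)` holds, then `ParityOn` holds for all powers of `X` and all sets of degrees. If `C⁺(X)` is false,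
there is an odd number `p < 2 d` such that for all `n` and all `D` with `ParityOn W (X^n) D` no two
degrees `m`, `m + p` between `2 d` and `2 n d - 2 d` are both in `D`; and the degrees in `D` contain at
most the share

  `1 / 2 + (4 d + 1) √(b(X) / (2 (n + 1)))`

of the cohomology of `X^n`, where `b` is the dimension of the whole cohomology.

So, in a class of varieties with such cycles, the sign conjecture for all varieties is equivalent to
the separation, by algebraic correspondences, of the even from the odd classes in degrees which
contain 51 percent of the cohomology of each variety `Y`; it even suffices to have the share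
`1 / 2 + f(b(Y))`, with `f(y) √(log y) → ∞`. And it suffices to separate them in `r(dim Y)` successive
degrees, anywhere at distance at least `r(dim Y)` from `0` and from `2 dim Y`, where `r(n) → ∞`
arbitrarily slowly.

The proof. If `C⁺(X)` is false, then some even degree `i` and odd degree `j` of `X` are not separated:
there are `y ∈ H^i(X)`, `y' ∈ H^j(X)` without `φ` as above (the pointwise principle and the descent
from `K` to the rational numbers are in the starting library). The same is true for `2 d - i` and
`2 d - j`, by transposition. Contraction with cycles shows that on `X^n` the degrees `i + 2 s` and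
`j + 2 s`, `s ≤ (n - 1) d`, are not separated, and also `2 d - i + 2 s` and `2 d - j + 2 s`. So `D` has no
two elements at distance `p = |i - j|`, apart from the ends. The degrees of `X^n` are distributed
like the sum of `n` independent random variables; the sum over the factors whose degree is `i` or `j`
is a binomial variable, and a set without two successive elements has at most the measure one half
plus half of the largest binomial probability.
-/

set_option autoImplicit false

open CategoryTheory AlgebraicGeometry

universe u v

namespace Pool.Agent.Results.MP_56c18a_ag.FiftyPercentLaw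

open Pool.Agent.H914 VarClass Obj WeilCohomology Pool.Agent.N103.OC Pool.Agent.TH133.PW
  Pool.Agent.H447 Pool.Agent.N536.SG

/-- **The fifty percent law for the sign conjecture.** -/
theorem result {k : Type u} [Field k] {𝒱 : VarClass k} {ops : CycleOps 𝒱}
    (W : WeilCohomology.{u, v} ops) :
    (∀ (Y : 𝒱.Obj) (D : Set ℕ), OneOperator W Y D → ParityOn W Y D) ∧
    (∀ Y : 𝒱.Obj, HasShare W Y (1 / 2)) ∧
    (∀ X : 𝒱.Obj, DualCycles ops X →
      (SignStd W X → ∀ n ≥ 1, ∀ D, ParityOn W (pw X n) D) ∧ (¬ SignStd W X → HalfBound W X)) ∧
    ((∀ Y : 𝒱.Obj, DualCycles ops Y) →
      SignFromShares W ∧ SignIffShare W ∧ SignFromWindows W) := by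
  refine ⟨fun Y D ⟨P, hP, h⟩ => parityOn_of_one hP h, fun Y => ?_, fun X hX => ⟨?_, ?_⟩,
    fun hd => ⟨fun f hf h => law_all W f hf hd h, fun ε h0 h1 => law_const W ε h0 h1 hd,
      fun r hr n₀ h => window_all W hr n₀ hd h⟩⟩
  · obtain ⟨D, hD, h⟩ := half_trivial W Y
    refine ⟨D, hD, ?_⟩
    have h1 : (totalBetti W Y : ℝ) ≤ 2 * bettiOn W Y D := by exact_mod_cast h
    linarith
  · intro h n hn D
    obtain ⟨n, rfl⟩ := Nat.exists_eq_add_of_le' hn
    exact parityOn_of_sign (signStd_pw h n) D
  · intro hC
    obtain ⟨a, p, hp, hpd, -, -, hno⟩ := no_pair (pairs_of_dual hX) hC
    refine ⟨p, hp, ?_, fun n hn D hD => ?_⟩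
    · rcases hp with ⟨q, rfl⟩
      omega
    · obtain ⟨n, rfl⟩ := Nat.exists_eq_add_of_le' hn
      refine ⟨fun m h1 h2 => hno n D hD m h1 ?_, ?_⟩
      · rw [pw_dim] at h2
        have h3 : 2 * ((n + 1) * X.dim) = n * (2 * X.dim) + 2 * X.dim := by ring
        omega
      · have h3 := share_le (pairs_of_dual hX) hC n D hD
        have h4 : (((n + 1 : ℕ) : ℝ) + 1) = (n : ℝ) + 2 := by
          push_cast
          ring
        rwa [h4]

end Pool.Agent.Results.MP_56c18a_ag.FiftyPercentLaw
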