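import Pool.Agent.N190.GS3.Main

/-!
# The sign conjecture for hyperplane sections of products

Let `X` be a variety of dimension `n ≥ 2` with a divisor `D`, and assume only the sign conjecture
`C⁺` for `X`. One generic hyperplane section `Z` (of dimension `2n - 3`) of `X × A`, `A` an abelian
variety of dimension `n - 2`, decides whether `C⁺` holds for the hyperplane sections (generic ones and
their smooth specializations) of all products `X × Q`, where `Q` is any variety satisfying the
conjecture B; this is the case if and only if the left inverses of the powers `ξ ^ (n - 1 - j)` on
`H^j(X)` are algebraic for `j ≤ n - 2`; and it is the case if the conjecture B holds for `X` in the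
degrees `≤ n - 2`, for example for every threefold over the algebraic closure of a finite field.
-/

set_option autoImplicit false

open CategoryTheory AlgebraicGeometry

universe u v

namespace Pool.Agent.Results.MP_56c18a_ag.SectionsOfProducts

open Pool.Agent.H914 Pool.Agent.H447 Pool.Agent.N190.GS2 Pool.Agent.N190.GS3

variable {k : Type u} [Field k] {𝒱 : VarClass k} {ops : CycleOps 𝒱}

/-- **For a variety `X` satisfying the sign conjecture, one generic hyperplane section decides the
sign conjecture for the hyperplane sections of `X × Q`, for all `Q` satisfying the conjecture B.** -/
theorem result (W : WeilCohomology.{u, v} ops) {X : 𝒱.Obj} {D : X.Cycles} (hD : X.IsCyc 1 D)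
    (hX : SignStd W X) :
    (∀ S : TestSection W D, List.TFAE [SignStd S.T.W S.Z, InvertsBelow W D, SignForSections W D]) ∧
    (HardLefschetz W X D → InverseUpTo W D → SignForSections W D) :=
  ⟨fun S => one_section_sign hD hX S, fun hHL hI => sign_of_inverse hD hHL hX hI⟩

end Pool.Agent.Results.MP_56c18a_ag.SectionsOfProducts
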