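import Pool.Agent.N103.WT.Main

/-!
# The sign conjecture and operators acting by arbitrary scalars on the cohomology groups

Let `c : ℕ → ℚ` be ANY function, and for a smooth proper variety `X` consider the operator which
acts on `H^i(X)` as multiplication by `c i`. For the indicator function of the even numbers, its
algebraicity is the sign conjecture `C⁺(X)`; for the indicator functions of all numbers `m` it is
the Künneth standard conjecture `C(X)`. What does one get from other functions, say from the
indicator function of the set of the squares, or of the set of the primes?

The numbers `i` and `m` are in the same class for `c` (`Same c i m`) if `c (i + s) = c (m + s)` for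
all `s ≥ 0`. If `c` is not eventually periodic all classes have one element; if `c` is eventually
periodic with smallest period `p` and preperiod `n` the classes are `{0}, …, {n - 1}` and the
residue classes modulo `p` of the numbers `≥ n`.

**One variety.** For all `d` there is a number `r₀` (depending only on `c` and `d`) such that for
all `X` of dimension `d`, all curves `E` with `H^1(E) ≠ 0`, and `r ≥ r₀`: the ONE operator which acts
as `c i` on `H^i(X × E^r)`, for all `i`, is algebraic if and only if for all classes the projector
of `H(X)` onto the sum of the `H^i(X)` with `i` in the class is algebraic. In particular this operator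
on `X × E^r` being algebraic

* implies `C⁺(X)` if `c` has no odd eventual period,
* is equivalent to `C(X)` if `c` is not eventually periodic.

**All varieties.** Let the class `𝒱` of varieties contain a curve with `H^1 ≠ 0`. The operator defined
by `c` is algebraic for all `X` in `𝒱` if and only if all projectors onto the classes are algebraic for
all `X` in `𝒱`. This implies `C⁺` for all `X` if `c` has no odd eventual period, and is equivalent to
`C` for all `X` if `c` is not eventually periodic.

All statements hold for the operators given by cycles with rational coefficients, and also for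
their linear combinations with coefficients in the coefficient field of the cohomology theory.

Idea of the proof: from the operator on `X × E` with eigenvalues `c i` one gets those on `X` with
eigenvalues `c i` and `c (i + 2)` by contraction with pairs of cycles on `E`, and from the
contraction with the diagonal of `E` the one with eigenvalues
`c i - b_1(E) c (i + 1) + c (i + 2)`; so one gets the shifts of `c` by all numbers `s ≤ 2 r` from
`X × E^r`, and the algebra generated by them.
-/

open CategoryTheory AlgebraicGeometry

set_option autoImplicit false

universe u v

namespace Pool.Agent.Results.MP_56c18a_ag.WeightFunctions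

open Pool.Agent.H914 VarClass Obj WeilCohomology Pool.Agent.N103.WT

/-- **Operators acting by the values of an arbitrary function on the cohomology groups.** -/
theorem result (c : ℕ → ℚ) :
    (∀ d : ℕ, ∃ r₀ : ℕ, ∀ {k : Type u} [Field k] {𝒱 : VarClass k} {ops : CycleOps 𝒱}
      (W : WeilCohomology.{u, v} ops) (A : 𝒱.Obj → (ℕ → ℚ) → Prop),
      (A = RationalWeight W ∨ A = SpanWeight W) →
      ∀ X E : 𝒱.Obj, X.dim = d → IsCurve W E → ∀ r ≥ r₀,
        (A (timesPow X E r) c ↔ ∀ m, A X (cls c m)) ∧
        (NoOddPeriod c → A (timesPow X E r) c → A X even) ∧
        (NoPeriod c → (A (timesPow X E r) c ↔ ∀ m, A X (delta m)))) ∧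
    (∀ {k : Type u} [Field k] {𝒱 : VarClass k} {ops : CycleOps 𝒱}
      (W : WeilCohomology.{u, v} ops) (A : 𝒱.Obj → (ℕ → ℚ) → Prop),
      (A = RationalWeight W ∨ A = SpanWeight W) → (∃ E, IsCurve W E) →
        ((∀ X, A X c) ↔ ∀ X m, A X (cls c m)) ∧
        (NoOddPeriod c → (∀ X, A X c) → ∀ X, A X even) ∧
        (NoPeriod c → ((∀ X, A X c) ↔ ∀ X m, A X (delta m)))) := by
  refine ⟨fun d => ?_, ?_⟩
  · obtain ⟨N, hN⟩ := exists_bound c (2 * d)
    refine ⟨N, ?_⟩
    intro k _ 𝒱 ops W A hA X E hX hE r hr
    obtain ⟨Op, h, hOp⟩ := exists_class hA
    subst hX
    have h1 : A (timesPow X E r) c ↔ ∀ m, A X (cls c m) := by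
      simp only [hOp]
      exact tower_iff h hE hN (by omega)
    refine ⟨h1, fun hc h2 => ?_, fun hc => ?_⟩
    · rw [h1] at h2
      rw [hOp]
      exact even_mem h hc fun m => (hOp _ _).1 (h2 m)
    · rw [h1]
      simp only [cls_eq_delta hc]
  · intro k _ 𝒱 ops W A hA hE
    obtain ⟨E, hE⟩ := hE
    obtain ⟨Op, h, hOp⟩ := exists_class hA
    have h1 : (∀ X, A X c) ↔ ∀ X m, A X (cls c m) := by
      simp only [hOp]
      exact all_iff h hE c
    refine ⟨h1, fun hc h2 X => ?_, fun hc => ?_⟩
    · rw [h1] at h2
      rw [hOp]
      exact even_mem h hc fun m => (hOp _ _).1 (h2 X m)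
    · rw [h1]
      simp only [cls_eq_delta hc]

end Pool.Agent.Results.MP_56c18a_ag.WeightFunctions
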